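import Pool.Agent.Q185.Mycielski.Words

/-!
# Counting: discrete weak Mycielski sets do not exist in Euclidean spaces
-/

namespace Pool.Q185.Mycielski

theorem dist_act_le {E : Type*} [MetricSpace E] (s : Bool → E ≃ᵢ E) (x : E) (C : ℝ)
    (hC : ∀ b, dist (s b x) x ≤ C) (w : List Bool) :
    dist (act s w x) x ≤ w.length * C := by
  induction w with
  | nil => simp [act]
  | cons b v ih =>
    rw [act_cons]
    calc dist (s b (act s v x)) x ≤ dist (s b (act s v x)) (s b x) + dist (s b x) x :=
          dist_triangle _ _ _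
      _ ≤ v.length * C + C := by
          rw [(s b).dist_eq]
          exact add_le_add ih (hC b)
      _ = ((b :: v).length : ℝ) * C := by
          rw [List.length_cons]; push_cast; ring

/-- The cell of a point in the cubic grid of mesh `1/M`. -/
noncomputable def cell {d : ℕ} (M : ℝ) (y : EuclideanSpace ℝ (Fin d)) : Fin d → ℤ :=
  fun j => ⌊M * y j⌋

theorem exists_mesh (d : ℕ) {ε : ℝ} (hε : 0 < ε) :
    ∃ M : ℝ, 0 < M ∧ ∀ y y' : EuclideanSpace ℝ (Fin d), cell M y = cell M y' →
      dist y y' < ε := by
  have hd : (0 : ℝ) < d + 1 := by positivity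
  refine ⟨(d + 1) / ε, by positivity, fun y y' h => ?_⟩
  have hj : ∀ j : Fin d, dist (y j) (y' j) ^ 2 ≤ (ε / (d + 1)) ^ 2 := by
    intro j
    have h1 := congrFun h j
    have h2 := Int.abs_sub_lt_one_of_floor_eq_floor h1
    rw [← mul_sub, abs_mul, abs_of_pos (by positivity : (0 : ℝ) < (d + 1) / ε)] at h2
    have h3 : |y j - y' j| ≤ ε / (d + 1) := by
      rw [le_div_iff₀ hd]
      have : (d + 1) / ε * |y j - y' j| * ε < 1 * ε := by gcongr
      have e : (d + 1) / ε * |y j - y' j| * ε = |y j - y' j| * (d + 1) := by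
        field_simp
      linarith
    rw [Real.dist_eq]
    exact pow_le_pow_left₀ (abs_nonneg _) h3 2
  rw [EuclideanSpace.dist_eq]
  have hs : ∑ j, dist (y j) (y' j) ^ 2 < ε ^ 2 := by
    calc ∑ j, dist (y j) (y' j) ^ 2 ≤ ∑ _j : Fin d, (ε / (d + 1)) ^ 2 :=
          Finset.sum_le_sum fun j _ => hj j
      _ = d * (ε / (d + 1)) ^ 2 := by simp
      _ < ε ^ 2 := by
          rw [div_pow, mul_div_assoc', div_lt_iff₀ (by positivity)]
          have hε2 : (0 : ℝ) < ε ^ 2 := by positivity
          have h0 : (0 : ℝ) ≤ d := Nat.cast_nonneg d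
          have h1 : (d : ℝ) < (d + 1) ^ 2 := by nlinarith
          have h2 := mul_lt_mul_of_pos_left h1 hε2
          linarith
  calc Real.sqrt (∑ j, dist (y j) (y' j) ^ 2) < Real.sqrt (ε ^ 2) :=
        Real.sqrt_lt_sqrt (Finset.sum_nonneg fun j _ => sq_nonneg _) hs
    _ = ε := Real.sqrt_sq hε.le

theorem poly_lt_exp (k d K : ℕ) :
    ∃ n : ℕ, (n + 1) ^ k * ((2 * (K * (n + 1)) + 1) ^ d) ^ k < 2 ^ n := by
  have ht := tendsto_pow_const_div_const_pow_of_one_lt (k + d * k) (r := 2) (by norm_num)
  have ht2 := ht.const_mul (2 * ((2 * K + 1 : ℝ) ^ (d * k)))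
  rw [mul_zero] at ht2
  have hev := (ht2.comp (Filter.tendsto_add_atTop_nat 1)).eventually_lt_const
    (by norm_num : (0 : ℝ) < 1)
  obtain ⟨n, hn⟩ := hev.exists
  refine ⟨n, ?_⟩
  simp only [Function.comp] at hn
  have h2 : (0 : ℝ) < 2 ^ (n + 1) := by positivity
  rw [mul_div_assoc', div_lt_iff₀ h2, one_mul, pow_succ (2 : ℝ) n] at hn
  have h3 : ((2 * K + 1 : ℝ) ^ (d * k)) * ((n + 1 : ℕ) : ℝ) ^ (k + d * k) < 2 ^ n := by
    nlinarith
  have h4 : (((2 * K + 1) ^ (d * k) * (n + 1) ^ (k + d * k) : ℕ) : ℝ) < ((2 ^ n : ℕ) : ℝ) := by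
    push_cast
    push_cast at h3
    exact h3
  have h5 : (2 * K + 1) ^ (d * k) * (n + 1) ^ (k + d * k) < 2 ^ n := by exact_mod_cast h4
  refine lt_of_le_of_lt ?_ h5
  have h6 : 2 * (K * (n + 1)) + 1 ≤ (2 * K + 1) * (n + 1) := by nlinarith
  calc (n + 1) ^ k * ((2 * (K * (n + 1)) + 1) ^ d) ^ k
      ≤ (n + 1) ^ k * (((2 * K + 1) * (n + 1)) ^ d) ^ k := by gcongr
    _ = (2 * K + 1) ^ (d * k) * (n + 1) ^ (k + d * k) := by
        rw [← pow_mul, mul_pow, pow_add]; ring

theorem no_data {d : ℕ} {X : Set (EuclideanSpace ℝ (Fin d))}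
    {s : Bool → EuclideanSpace ℝ (Fin d) ≃ᵢ EuclideanSpace ℝ (Fin d)}
    {f : Bool → EuclideanSpace ℝ (Fin d)} (D : Data X s f) (hX : IsDiscreteSet X) : False := by
  classical
  obtain ⟨T0, hTX, hspan, hind⟩ := exists_affineIndependent ℝ (EuclideanSpace ℝ (Fin d)) X
  have hfin : T0.Finite := finite_set_of_fin_dim_affineIndependent ℝ hind
  obtain ⟨T, rfl⟩ : ∃ T : Finset (EuclideanSpace ℝ (Fin d)), (T : Set _) = T0 :=
    ⟨hfin.toFinset, by simp⟩
  have hXT : ∀ x ∈ X, x ∈ affineSpan ℝ (T : Set (EuclideanSpace ℝ (Fin d))) := by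
    intro x hx
    rw [hspan]
    exact subset_affineSpan ℝ X hx
  have hdet : ∀ w w' : List Bool, (∀ i ∈ T, act s w i = act s w' i) →
      ∀ x ∈ X, act s w x = act s w' x := by
    intro w w' h x hx
    have := AffineMap.eqOn_affineSpan (k := ℝ)
      (f := (act s w).toRealAffineIsometryEquiv.toAffineIsometry.toAffineMap)
      (g := (act s w').toRealAffineIsometryEquiv.toAffineIsometry.toAffineMap)
      (s := (T : Set (EuclideanSpace ℝ (Fin d))))
      (fun i hi => by simpa using h i hi) (hXT x hx)
    simpa using this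
  -- a common isolation radius
  have hε : ∃ ε > 0, ∀ x ∈ T, ∀ y ∈ X, dist y x < ε → y = x := by
    have : ∀ S : Finset (EuclideanSpace ℝ (Fin d)), (S : Set _) ⊆ X →
        ∃ ε > 0, ∀ x ∈ S, ∀ y ∈ X, dist y x < ε → y = x := by
      intro S
      induction S using Finset.induction_on with
      | empty => exact fun _ => ⟨1, one_pos, by simp⟩
      | insert a S ha ih =>
        intro hS
        obtain ⟨ε, hε, h⟩ := ih (fun x hx => hS (by simp [hx]))
        obtain ⟨δ, hδ, h'⟩ := hX a (hS (by simp))
        refine ⟨min ε δ, lt_min hε hδ, ?_⟩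
        intro x hx y hy hd
        rcases Finset.mem_insert.mp hx with rfl | hx
        · exact h' y hy (lt_of_lt_of_le hd (min_le_right _ _))
        · exact h x hx y hy (lt_of_lt_of_le hd (min_le_left _ _))
    exact this T hTX
  obtain ⟨ε, hε, hiso⟩ := hε
  obtain ⟨M, hM, hcell⟩ := exists_mesh d hε
  -- a common displacement bound
  obtain ⟨C, hC⟩ : ∃ C : ℝ, ∀ x ∈ T, ∀ b, dist (s b x) x ≤ C := by
    refine ⟨∑ x ∈ T, ∑ b : Bool, dist (s b x) x, fun x hx b => ?_⟩
    calc dist (s b x) x ≤ ∑ b : Bool, dist (s b x) x :=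
          Finset.single_le_sum (f := fun b => dist (s b x) x) (fun _ _ => dist_nonneg)
            (Finset.mem_univ b)
      _ ≤ _ := Finset.single_le_sum (f := fun x => ∑ b : Bool, dist (s b x) x)
            (fun _ _ => Finset.sum_nonneg fun _ _ => dist_nonneg) hx
  obtain ⟨R, hR⟩ : ∃ R : ℝ, ∀ x ∈ T, ‖x‖ ≤ R :=
    ⟨∑ x ∈ T, ‖x‖, fun x hx => Finset.single_le_sum (f := fun x => ‖x‖)
      (fun _ _ => norm_nonneg _) hx⟩
  obtain ⟨K, hK⟩ : ∃ K : ℕ, M * (|R| + |C|) + 1 ≤ K := exists_nat_ge _
  have hbox : ∀ x ∈ T, ∀ w : List Bool, ∀ j, cell M (act s w x) j ∈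
      Finset.Icc (-((K * (w.length + 1) : ℕ) : ℤ)) ((K * (w.length + 1) : ℕ) : ℤ) := by
    intro x hx w j
    have h1 := dist_act_le s x C (hC x hx) w
    have h2 : |act s w x j| ≤ (|R| + |C|) * (w.length + 1) := by
      calc |act s w x j| ≤ ‖act s w x‖ := by
            rw [← Real.norm_eq_abs]; exact PiLp.norm_apply_le _ j
        _ ≤ ‖x‖ + dist (act s w x) x := by
            rw [dist_eq_norm]
            calc ‖act s w x‖ = ‖x + (act s w x - x)‖ := by congr 1; abel
              _ ≤ _ := norm_add_le _ _
        _ ≤ |R| + w.length * |C| := by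
            have := hR x hx
            have h3 := le_abs_self R
            have h4 : (w.length : ℝ) * C ≤ w.length * |C| := by
              gcongr; exact le_abs_self C
            linarith
        _ ≤ (|R| + |C|) * (w.length + 1) := by
            have h3 := abs_nonneg R
            have h4 := abs_nonneg C
            have h5 : (0 : ℝ) ≤ w.length := Nat.cast_nonneg _
            nlinarith
    have h3 : |M * act s w x j| + 1 ≤ K * (w.length + 1) := by
      rw [abs_mul, abs_of_pos hM]
      have h5 : (0 : ℝ) ≤ w.length := Nat.cast_nonneg _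
      calc M * |act s w x j| + 1 ≤ M * ((|R| + |C|) * (w.length + 1)) + 1 * (w.length + 1) := by
            have := mul_le_mul_of_nonneg_left h2 hM.le
            linarith
        _ = (M * (|R| + |C|) + 1) * (w.length + 1) := by ring
        _ ≤ K * (w.length + 1) := by gcongr
    rw [Finset.mem_Icc]
    have h4 := abs_le.mp (show |M * act s w x j| ≤ K * (w.length + 1) - 1 by linarith)
    constructor
    · unfold cell
      rw [Int.le_floor]
      push_cast
      linarith [h4.1]
    · unfold cell
      have : (⌊M * act s w x j⌋ : ℝ) ≤ ((K * (w.length + 1) : ℕ) : ℝ) := by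
        refine (Int.floor_le _).trans ?_
        push_cast
        linarith [h4.2]
      exact_mod_cast this
  -- counting
  have hcount : ∀ n : ℕ, 2 ^ n ≤ (n + 1) ^ T.card * ((2 * (K * (n + 1)) + 1) ^ d) ^ T.card := by
    intro n
    let W : (Fin n → Bool) → List Bool := fun w => List.ofFn w
    have hWlen : ∀ w, (W w).length = n := fun w => by simp [W]
    let Φ : (Fin n → Bool) → (T → Fin d → ℤ) := fun w i => cell M (act s (W w) i)
    have h1 := Finset.card_le_mul_card_image (f := Φ) Finset.univ ((n + 1) ^ T.card) ?_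
    · have h2 : (Finset.univ.image Φ).card ≤ ((2 * (K * (n + 1)) + 1) ^ d) ^ T.card := by
        have hsub : Finset.univ.image Φ ⊆ Fintype.piFinset (fun _ : T =>
            Fintype.piFinset (fun _ : Fin d =>
              Finset.Icc (-((K * (n + 1) : ℕ) : ℤ)) ((K * (n + 1) : ℕ) : ℤ))) := by
          intro a ha
          obtain ⟨w, -, rfl⟩ := Finset.mem_image.mp ha
          rw [Fintype.mem_piFinset]
          intro i
          rw [Fintype.mem_piFinset]
          intro j
          have := hbox i i.2 (W w) j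
          rw [hWlen] at this
          exact this
        refine (Finset.card_le_card hsub).trans ?_
        rw [Fintype.card_piFinset, Finset.prod_const, Fintype.card_piFinset, Finset.prod_const,
          Int.card_Icc]
        simp only [Finset.card_univ, Fintype.card_fin, Fintype.card_coe]
        apply le_of_eq
        congr 2
        omega
      rw [Finset.card_univ, Fintype.card_fun, Fintype.card_bool, Fintype.card_fin] at h1
      exact h1.trans (Nat.mul_le_mul_left _ h2)
    · intro a ha
      obtain ⟨w0, -, rfl⟩ := Finset.mem_image.mp ha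
      have hinj : Set.InjOn (fun (w : Fin n → Bool) (i : T) => act s (W w) i)
          (Finset.univ.filter fun w => Φ w = Φ w0 : Finset (Fin n → Bool)) := by
        intro w _ w' _ h
        have : W w = W w' := by
          apply D.eq_of_agree hX _ _ (by rw [hWlen, hWlen])
          apply hdet
          intro i hi
          exact congrFun h ⟨i, hi⟩
        exact List.ofFn_injective this
      rw [← Finset.card_image_of_injOn hinj]
      have hsub : (Finset.univ.filter fun w => Φ w = Φ w0).image
          (fun (w : Fin n → Bool) (i : T) => act s (W w) i) ⊆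
          Fintype.piFinset (fun i : T => insert (act s (W w0) i) (miss s f (W w0)).toFinset) := by
        intro a ha
        obtain ⟨w, hw, rfl⟩ := Finset.mem_image.mp ha
        have hw2 := (Finset.mem_filter.mp hw).2
        rw [Fintype.mem_piFinset]
        intro i
        have hc : dist (act s (W w) i) (act s (W w0) i) < ε := hcell _ _ (congrFun hw2 i)
        rw [Finset.mem_insert, List.mem_toFinset]
        by_cases hmem : act s (W w) i ∈ act s (W w0) '' X
        · left
          obtain ⟨y, hy, hy2⟩ := hmem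
          rw [← hy2, (act s (W w0)).dist_eq] at hc
          rw [hiso i i.2 y hy hc] at hy2
          exact hy2.symm
        · right
          exact D.mem_miss_of _ (D.maps _ (hTX i.2)) hmem
      refine (Finset.card_le_card hsub).trans ?_
      rw [Fintype.card_piFinset]
      calc ∏ i : T, (insert (act s (W w0) i) (miss s f (W w0)).toFinset).card
          ≤ ∏ _i : T, (n + 1) := by
            apply Finset.prod_le_prod (fun _ _ => Nat.zero_le _)
            intro i _
            refine (Finset.card_insert_le _ _).trans ?_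
            have h3 := List.toFinset_card_le (miss s f (W w0))
            rw [length_miss, hWlen] at h3
            omega
        _ = (n + 1) ^ T.card := by simp
  obtain ⟨n, hn⟩ := poly_lt_exp T.card d K
  exact absurd (hcount n) (not_le.mpr hn)

/-- There is no discrete weak Mycielski set in a Euclidean space. -/
theorem no_discrete_weakMycielski (d : ℕ) (X : Set (EuclideanSpace ℝ (Fin d)))
    (hW : WeakMycielski X) : ¬ IsDiscreteSet X := by
  intro hX
  obtain ⟨p, hp, q, hq, hpq, ⟨g, hg⟩, ⟨h, hh⟩⟩ := hW
  have hg' : g.symm '' X = X \ {p} := by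
    calc g.symm '' X = g.symm '' (g '' (X \ {p})) := by rw [hg]
      _ = X \ {p} := by rw [Set.image_image]; simp
  have hh' : h.symm '' X = X \ {q} := by
    calc h.symm '' X = h.symm '' (h '' (X \ {q})) := by rw [hh]
      _ = X \ {q} := by rw [Set.image_image]; simp
  exact no_data (X := X) (s := fun b => cond b g.symm h.symm) (f := fun b => cond b p q)
    ⟨fun b => by cases b <;> simpa, by simpa, fun b => by cases b <;> simpa⟩ hX

end Pool.Q185.Mycielski
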