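import Mathlib

/-!
# Words in the two isometries of a weak Mycielski set
-/

namespace Pool.Q185.Mycielski

variable {E : Type*} [MetricSpace E]

/-- Two subsets of a metric space are congruent if an isometry of the space maps the first onto
the second. -/
def Congruent (A B : Set E) : Prop := ∃ g : E ≃ᵢ E, g '' A = B

/-- `X` is a weak Mycielski set: there are distinct points `p, q` of `X` such that `X \ {p}` and
`X \ {q}` are both congruent to `X`. -/
def WeakMycielski (X : Set E) : Prop :=
  ∃ p ∈ X, ∃ q ∈ X, p ≠ q ∧ Congruent (X \ {p}) X ∧ Congruent (X \ {q}) X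

/-- Every point of `X` is isolated in `X`. -/
def IsDiscreteSet (X : Set E) : Prop :=
  ∀ x ∈ X, ∃ ε > 0, ∀ y ∈ X, dist y x < ε → y = x

/-- The isometry given by a word. -/
def act (s : Bool → E ≃ᵢ E) : List Bool → E ≃ᵢ E
  | [] => 1
  | b :: v => s b * act s v

/-- The list of the points of `X` missed by the image of `X` under a word. -/
def miss (s : Bool → E ≃ᵢ E) (f : Bool → E) : List Bool → List E
  | [] => []
  | b :: v => f b :: (miss s f v).map (s b)

theorem act_cons (s : Bool → E ≃ᵢ E) (b : Bool) (v : List Bool) (x : E) :
    act s (b :: v) x = s b (act s v x) := rfl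

theorem act_append (s : Bool → E ≃ᵢ E) (u v : List Bool) (x : E) :
    act s (u ++ v) x = act s u (act s v x) := by
  induction u with
  | nil => rfl
  | cons b u ih => rw [List.cons_append, act_cons, act_cons, ih]

theorem length_miss (s : Bool → E ≃ᵢ E) (f : Bool → E) (w : List Bool) :
    (miss s f w).length = w.length := by
  induction w with
  | nil => rfl
  | cons b u ih => simp [miss, ih]

/-- Every missed point is the image of `f e` under a prefix of the word. -/
theorem mem_miss (s : Bool → E ≃ᵢ E) (f : Bool → E) (w : List Bool) (y : E)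
    (hy : y ∈ miss s f w) : ∃ (a : List Bool) (e : Bool), y = act s a (f e) := by
  induction w generalizing y with
  | nil => simp [miss] at hy
  | cons b u ih =>
    rw [miss, List.mem_cons] at hy
    rcases hy with hy | hy
    · exact ⟨[], b, hy⟩
    · rw [List.mem_map] at hy
      obtain ⟨z, hz, rfl⟩ := hy
      obtain ⟨a, e, rfl⟩ := ih z hz
      exact ⟨b :: a, e, rfl⟩

/-- The data of a weak Mycielski set. -/
structure Data (X : Set E) (s : Bool → E ≃ᵢ E) (f : Bool → E) : Prop where
  mem : ∀ b, f b ∈ X
  ne : f true ≠ f false
  img : ∀ b, s b '' X = X \ {f b}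

variable {X : Set E} {s : Bool → E ≃ᵢ E} {f : Bool → E}

theorem Data.image (D : Data X s f) (w : List Bool) :
    act s w '' X = X \ {y | y ∈ miss s f w} := by
  induction w with
  | nil =>
    ext y
    simp [act, miss]
  | cons b u ih =>
    have h1 : act s (b :: u) '' X = s b '' (act s u '' X) := by
      rw [Set.image_image]; rfl
    rw [h1, ih, Set.image_sdiff (s b).injective, D.img]
    ext y
    simp only [miss, List.mem_cons, List.mem_map, Set.mem_sdiff, Set.mem_singleton_iff,
      Set.mem_image, Set.mem_ofPred_eq]
    rw [not_or, and_assoc]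

theorem Data.maps (D : Data X s f) (w : List Bool) {x : E} (hx : x ∈ X) : act s w x ∈ X := by
  have : act s w x ∈ act s w '' X := ⟨x, hx, rfl⟩
  rw [D.image] at this
  exact this.1

theorem Data.mem_miss_of (D : Data X s f) (w : List Bool) {y : E} (hy : y ∈ X)
    (h : y ∉ act s w '' X) : y ∈ miss s f w := by
  rw [D.image] at h
  by_contra h2
  exact h ⟨hy, h2⟩

theorem Data.not_mem_image (D : Data X s f) (b : Bool) (v : List Bool) :
    f b ∉ act s (b :: v) '' X := by
  rw [D.image]
  intro h
  exact h.2 (by simp [miss])

/-- A nonempty word has no fixed point, if `X` is discrete and closed balls are compact. -/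
theorem Data.no_fix [ProperSpace E] (D : Data X s f) (hX : IsDiscreteSet X) (b : Bool)
    (v : List Bool) (z : E) : act s (b :: v) z ≠ z := by
  intro hz
  set T := act s (b :: v) with hT
  obtain ⟨ε, hε, hiso⟩ := hX (f b) (D.mem b)
  have hTX : ∀ x ∈ X, T x ∈ X := fun x hx => D.maps _ hx
  have hmem : ∀ k : ℕ, (T^[k]) (f b) ∈ X := by
    intro k
    induction k with
    | zero => exact D.mem b
    | succ k ih => rw [Function.iterate_succ_apply']; exact hTX _ ih
  have hdist : ∀ k : ℕ, ∀ x y, dist ((T^[k]) x) ((T^[k]) y) = dist x y := by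
    intro k
    induction k with
    | zero => intro x y; rfl
    | succ k ih =>
      intro x y
      rw [Function.iterate_succ_apply', Function.iterate_succ_apply', T.dist_eq, ih]
  have hfix : ∀ k : ℕ, (T^[k]) z = z := by
    intro k
    induction k with
    | zero => rfl
    | succ k ih => rw [Function.iterate_succ_apply', ih, hz]
  have hball : ∀ k : ℕ, (T^[k]) (f b) ∈ Metric.closedBall z (dist (f b) z) := by
    intro k
    rw [Metric.mem_closedBall]
    conv_lhs => rw [← hfix k]
    rw [hdist]
  obtain ⟨a, -, φ, hφ, hlim⟩ :=
    (isCompact_closedBall z (dist (f b) z)).tendsto_subseq hball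
  have hC := hlim.cauchySeq
  rw [Metric.cauchySeq_iff] at hC
  obtain ⟨N, hN⟩ := hC ε hε
  have h1 := hN (N + 1) (by omega) N (le_refl _)
  simp only [Function.comp] at h1
  have hlt : φ N < φ (N + 1) := hφ (by omega)
  obtain ⟨m, hm⟩ : ∃ m, φ (N + 1) = φ N + (m + 1) := ⟨φ (N + 1) - φ N - 1, by omega⟩
  rw [hm, Function.iterate_add_apply, hdist] at h1
  have h2 := hiso _ (hmem (m + 1)) h1
  apply D.not_mem_image b v
  refine ⟨(T^[m]) (f b), hmem m, ?_⟩
  rw [← Function.iterate_succ_apply' (⇑T)]
  exact h2

/-- Two words of the same length which agree on `X` are equal. -/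
theorem Data.eq_of_agree [ProperSpace E] (D : Data X s f) (hX : IsDiscreteSet X) :
    ∀ w w' : List Bool, w.length = w'.length → (∀ x ∈ X, act s w x = act s w' x) → w = w' := by
  have key : ∀ (b c : Bool) (u v : List Bool), b ≠ c →
      (∀ x ∈ X, act s (b :: u) x = act s (c :: v) x) →
      ∃ a : List Bool, f b = act s (c :: a) (f c) := by
    intro b c u v hbc hag
    have himg : act s (b :: u) '' X = act s (c :: v) '' X := Set.image_congr hag
    have h1 : f b ∉ act s (c :: v) '' X := himg ▸ D.not_mem_image b u
    have h2 := D.mem_miss_of _ (D.mem b) h1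
    rw [miss, List.mem_cons] at h2
    rcases h2 with h2 | h2
    · exfalso
      have hne := D.ne
      revert h2 hne hbc
      cases b <;> cases c <;> simp_all
    · rw [List.mem_map] at h2
      obtain ⟨z, hz, hz2⟩ := h2
      obtain ⟨a, e, rfl⟩ := mem_miss s f v z hz
      refine ⟨a, ?_⟩
      by_cases he : e = c
      · rw [← hz2, he, act_cons]
      · have heb : e = b := by
          revert he hbc
          cases e <;> cases b <;> cases c <;> simp
        exfalso
        rw [heb] at hz2
        exact D.no_fix hX c a (f b) hz2
  intro w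
  induction w with
  | nil =>
    intro w' hl _
    exact (List.length_eq_zero_iff.mp hl.symm).symm
  | cons b u ih =>
    intro w' hl hag
    cases w' with
    | nil => simp at hl
    | cons c v =>
      by_cases hbc : b = c
      · subst hbc
        have : u = v := by
          apply ih v (by simpa using hl)
          intro x hx
          exact (s b).injective (hag x hx)
        rw [this]
      · exfalso
        obtain ⟨a, ha⟩ := key b c u v hbc hag
        obtain ⟨a', ha'⟩ := key c b v u (Ne.symm hbc) (fun x hx => (hag x hx).symm)
        apply D.no_fix hX c (a ++ (b :: a')) (f b)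
        rw [← List.cons_append, act_append, ← ha', ← ha]

end Pool.Q185.Mycielski
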